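import Pool.Agent.W719.AR.Rt
import Pool.Agent.W719.BS.Alg
import Pool.Agent.W358.BSTr

/-! Task AR-EVT (helper719): the invariant of a tree at generic `v`. -/

set_option autoImplicit false

namespace Pool.Agent.W334.AR

open Finset Filter Topology Matrix
open Pool.Agent.H550R3.Jones Pool.Agent.W711.HT Pool.Agent.W719.AR
open Pool.Agent.W719.BS (rot kw crossP_eig crossN_eig eig)

/-- powers of an operator which is scalar on a summand -/
lemma pow_eig {N : ℕ} {m : Type} [Fintype m] (A : Matrix (Fin N × Fin N) (Fin N × Fin N) ℂ)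
    (φ : Matrix (Fin N × Fin N) m ℂ) (r : ℂ) (h : A * φ = r • φ) (n : ℕ) :
    A ^ n * φ = r ^ n • φ := by
  induction n with
  | zero => simp
  | succ n ih =>
    rw [pow_succ, Matrix.mul_assoc, h, Matrix.mul_smul, ih, smul_smul, pow_succ, mul_comm]

/-- the operator of a tree is scalar on the summands -/
theorem op_eig (hR : S_ROTE) (u : ℂ) (hu : Gen u) (N : ℕ) {φ ψ} (hd : IsDec u N φ ψ) (t : Tr) :
    ∀ d : Fin N, op N (u ^ 2) t * φ d = ev N (u ^ 2) t (N - 1 - d) • φ d := by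
  induction t with
  | vx a =>
    intro d
    have hv0 : u ^ 2 ≠ 0 := pow_ne_zero 2 hu.1
    show (if 0 ≤ a then crossP N (u ^ 2) ^ a.toNat else crossN N (u ^ 2) ^ (-a).toNat) * φ d =
      ex N a (u ^ 2) (N - 1 - d) • φ d
    by_cases ha : 0 ≤ a
    · rw [if_pos ha, pow_eig _ _ _ (crossP_eig u hu N hd d)]
      congr 1
      unfold ex eig
      obtain ⟨n, rfl⟩ := Int.eq_ofNat_of_zero_le ha
      simp
    · rw [if_neg ha, pow_eig _ _ _ (crossN_eig u hu N hd d)]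
      congr 1
      have h4 : ∀ k : ℕ, ((-1 : ℂ) ^ k)⁻¹ = (-1) ^ k := by
        intro k
        rw [← inv_pow]; norm_num
      have h5 : ∀ (k : ℕ) (x : ℂ) (e : ℤ) (n : ℕ), ((-1) ^ k * x ^ (-e)) ^ n =
          ((-1) ^ k * x ^ e) ^ (-(n : ℤ)) := by
        intro k x e n
        rw [_root_.zpow_neg x e, _root_.zpow_neg _ (n : ℤ), zpow_natCast, ← inv_pow, mul_inv, h4]
      obtain ⟨n, hn⟩ := Int.eq_ofNat_of_zero_le (show 0 ≤ -a by omega)
      have ha2 : a = -(n : ℤ) := by omega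
      have ha3 : (-a).toNat = n := by omega
      rw [ha3, ha2]
      exact h5 _ _ _ _
  | br t s iht ihs =>
    intro d
    have h1 := hR u hu N φ ψ hd (op N (u ^ 2) s) (ev N (u ^ 2) s) ihs d
    show (op N (u ^ 2) t * rot N (u ^ 2) (op N (u ^ 2) s)) * φ d = _
    rw [Matrix.mul_assoc, h1, Matrix.mul_smul, iht d, smul_smul]
    congr 1
    show _ = ev N (u ^ 2) t _ * rt N (u ^ 2) (ev N (u ^ 2) s) _
    ring

theorem evt : S_ROTE → S_EVT := by
  intro hR u hu N h t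
  obtain ⟨φ, ψ, hd⟩ := Pool.Agent.H897R.J.taskDec Pool.Agent.H345J.taskMod
    Pool.Agent.H345J.taskInt u hu N
  have ht := Pool.Agent.W358.BSTr.tr u hu N h φ ψ hd (op N (u ^ 2) t)
    (fun d => ev N (u ^ 2) t (N - 1 - d)) (fun d => op_eig hR u hu N hd t d)
  have hJ : jt t N (u ^ 2) = ptr (kw N (u ^ 2)) (op N (u ^ 2) t) ⟨0, h⟩ ⟨0, h⟩ := by
    unfold jt; rw [dif_pos h]
  have hcc : ∀ d : Fin N, ((cc N d : ℕ) : ℤ) = 2 * ((N - 1 - (d : ℕ) : ℕ) : ℤ) + 1 := by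
    intro d; unfold cc; have := d.2; omega
  rw [hJ, ht]
  have hs : ∑ d : Fin N, ev N (u ^ 2) t (N - 1 - d) * br (u ^ 2) (cc N d) =
      ∑ d : Fin N, ev N (u ^ 2) t (N - 1 - d) *
        br (u ^ 2) (2 * ((N - 1 - (d : ℕ) : ℕ) : ℤ) + 1) :=
    sum_congr rfl fun d _ => by rw [hcc d]
  rw [hs, Fin.sum_univ_eq_sum_range (fun d => ev N (u ^ 2) t (N - 1 - d) *
        br (u ^ 2) (2 * ((N - 1 - d : ℕ) : ℤ) + 1)) N,
    Finset.sum_range_reflect (fun c => ev N (u ^ 2) t c *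
        br (u ^ 2) (2 * (c : ℤ) + 1)) N]

end Pool.Agent.W334.AR
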